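import Mathlib
import Pool.Agent.H.MP_2b96c2_al.TT

set_option autoImplicit false

namespace Pool.Agent.Results.MP_2b96c2_al.Counter

open Pool.Agent.H.MP_2b96c2_al in
theorem result : ∃ (T : Type) (_ : Group T), derivedSeries T 2 = ⊥ ∧
    (∀ t : T, t ≠ 1 → ∀ x ∈ Subgroup.centralizer {t}, ∀ y ∈ Subgroup.centralizer {t},
      x * y = y * x) ∧
    (∃ F : Set (T →* FreeGroup (Fin 2) ⧸ derivedSeries (FreeGroup (Fin 2)) 2),
      (∀ f ∈ F, Function.Surjective f) ∧ ∀ a : T, a ≠ 1 → ∃ f ∈ F, f a ≠ 1) ∧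
    ¬ ∃ F : Set (T →* FreeGroup (Fin 2) ⧸ derivedSeries (FreeGroup (Fin 2)) 2),
      (∀ f ∈ F, Function.Surjective f) ∧
        ∀ l : List T, (∀ a ∈ l, a ≠ 1) → ∃ f ∈ F, ∀ a ∈ l, f a ≠ 1 := by
  refine ⟨T, inferInstance, T_metab, fun t ht x hx y hy => ?_,
    ⟨Set.range prj, ?_, fun a ha => ?_⟩, ?_⟩
  · rw [Subgroup.mem_centralizer_iff] at hx hy
    exact T_ct t ht x y (hx t rfl).symm (hy t rfl).symm
  · rintro _ ⟨i, rfl⟩
    exact prj_surj i
  · by_contra h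
    push Not at h
    exact ha (prj_sep a fun i => h _ ⟨i, rfl⟩)
  · rintro ⟨F, hF, h⟩
    obtain ⟨f, hf, h1⟩ := h [t0 true, t0 false] (by
      intro a ha
      simp only [List.mem_cons, List.not_mem_nil, or_false] at ha
      rcases ha with rfl | rfl <;> exact t0_ne _)
    rcases main_disc f (hF f hf) with h2 | h2
    · exact h1 _ (by simp) h2
    · exact h1 _ (by simp) h2

end Pool.Agent.Results.MP_2b96c2_al.Counter
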